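import Pool.Agent.Helper35.HC.StA

set_option autoImplicit false

/-!
# Module PI2 of project HC: convexity in the direction of `H`
-/

namespace Pool.Agent.Helper62.HC

open Helper35.HC Helper35.HSF Helper35.MS Helper35.PI Helper35.PI2 Helper32.CL
open scoped BigOperators

section

variable {n : ℕ}

theorem bil_lc (a a' : ℝ) (K b : Fin n → Fin n → ℝ) (c d : Fin n → ℝ) :
    bil (lc a a' K b) c d = a * bil K c d + a' * bil b c d := by
  simp only [bil, lc, Finset.mul_sum, ← Finset.sum_add_distrib]
  exact Finset.sum_congr rfl fun i _ => Finset.sum_congr rfl fun j _ => by ring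

theorem mt_lc (a a' : ℝ) (K b : Fin n → Fin n → ℝ) :
    mt (lc a a' K b) = a * mt K + a' * mt b := by
  simp only [Helper35.HC.mt, lc, Finset.sum_add_distrib, ← Finset.mul_sum]
  ring

theorem tl_lc (a a' : ℝ) (K b : Fin n → Fin n → ℝ) (i j : Fin n) :
    tl (lc a a' K b) i j = a * tl K i j + a' * tl b i j := by
  simp only [tl, mt_lc]
  simp only [lc]
  split_ifs <;> ring

theorem ip0_nonneg (X : Fin n → Fin n → ℝ) : 0 ≤ ip0 X X :=
  Finset.sum_nonneg fun _ _ => Finset.sum_nonneg fun _ _ => mul_self_nonneg _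

/-- the rotation of a pair of matrices does not change the sum of the squared norms -/
theorem ip0_rot (a a' : ℝ) (h : a ^ 2 + a' ^ 2 = 1) (K b : Fin n → Fin n → ℝ) :
    ip0 (lc a a' K b) (lc a a' K b) + ip0 (lc (-a') a K b) (lc (-a') a K b) =
      ip0 K K + ip0 b b := by
  simp only [ip0, tl_lc, ← Finset.sum_add_distrib]
  refine Finset.sum_congr rfl fun i _ => Finset.sum_congr rfl fun j _ => ?_
  linear_combination (tl K i j * tl K i j + tl b i j * tl b i j) * h

theorem bil_self_smul (X : Fin n → Fin n → ℝ) (s : ℝ) (v : Fin n → ℝ) :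
    bil X (fun i => s * v i) (fun i => s * v i) = s ^ 2 * bil X v v := by
  simp only [bil, Finset.mul_sum]
  exact Finset.sum_congr rfl fun i _ => Finset.sum_congr rfl fun j _ => by ring

/-- the sum of the values on the projections of the standard basis -/
theorem sum_proj (X : Fin n → Fin n → ℝ) (w : Fin n → ℝ) (hw : ∑ i, w i ^ 2 = 1) :
    ∑ k : Fin n, bil X (fun i => (if i = k then (1 : ℝ) else 0) - w k * w i)
        (fun i => (if i = k then (1 : ℝ) else 0) - w k * w i) =
      (∑ i, X i i) - bil X w w := by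
  have h1 : ∀ k : Fin n, bil X (fun i => (if i = k then (1 : ℝ) else 0) - w k * w i)
        (fun i => (if i = k then (1 : ℝ) else 0) - w k * w i) =
      X k k - w k * (∑ j, X k j * w j) - w k * (∑ i, X i k * w i) + w k ^ 2 * bil X w w := by
    intro k
    have h2 : bil X (fun i => (if i = k then (1 : ℝ) else 0) - w k * w i)
        (fun i => (if i = k then (1 : ℝ) else 0) - w k * w i) =
      ∑ i, ∑ j, ((if i = k then (if j = k then X i j else 0) else 0)
        - (if i = k then w k * (X i j * w j) else 0)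
        - (if j = k then w k * (X i j * w i) else 0) + w k ^ 2 * (X i j * (w i * w j))) := by
      unfold bil
      refine Finset.sum_congr rfl fun i _ => Finset.sum_congr rfl fun j _ => ?_
      by_cases hi : i = k <;> by_cases hj : j = k <;> simp [hi, hj] <;> ring
    rw [h2]
    simp only [Finset.sum_add_distrib, Finset.sum_sub_distrib]
    congr 1
    · congr 1
      · congr 1
        · simp [Finset.sum_ite_irrel]
        · rw [Finset.mul_sum]
          simp [Finset.sum_ite_irrel]
      · rw [Finset.mul_sum]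
        refine Finset.sum_congr rfl fun i _ => ?_
        simp
    · simp only [bil, Finset.mul_sum]
  rw [Finset.sum_congr rfl fun k _ => h1 k]
  simp only [Finset.sum_add_distrib, Finset.sum_sub_distrib]
  have h3 : ∑ k, w k * (∑ j, X k j * w j) = bil X w w := by
    simp only [bil, Finset.mul_sum]
    exact Finset.sum_congr rfl fun i _ => Finset.sum_congr rfl fun j _ => by ring
  have h4 : ∑ k, w k * (∑ i, X i k * w i) = bil X w w := by
    simp only [bil, Finset.mul_sum]
    rw [Finset.sum_comm]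
    exact Finset.sum_congr rfl fun i _ => Finset.sum_congr rfl fun j _ => by ring
  have h5 : ∑ k, w k ^ 2 * bil X w w = bil X w w := by
    rw [← Finset.sum_mul, hw, one_mul]
  rw [h3, h4, h5]
  ring

/-- a value is not much smaller than the mean -/
theorem mean_le (X : Fin n → Fin n → ℝ) (μ : ℝ)
    (hX : ∀ c d, OP c d → bil X c c - bil X d d ≤ 2 * μ) (w : Fin n → ℝ)
    (hw : ∑ i, w i ^ 2 = 1) :
    (∑ i, X i i) - bil X w w ≤ (n - 1) * (bil X w w + 2 * μ) := by
  rw [← sum_proj X w hw]
  have hs : ∀ k : Fin n, ∑ i, ((if i = k then (1 : ℝ) else 0) - w k * w i) ^ 2 =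
      1 - w k ^ 2 := by
    intro k
    have h1 : ∀ i : Fin n, ((if i = k then (1 : ℝ) else 0) - w k * w i) ^ 2 =
        (if i = k then 1 - 2 * (w k * w i) else 0) + w k ^ 2 * w i ^ 2 := by
      intro i
      split_ifs <;> ring
    simp only [h1, Finset.sum_add_distrib, ← Finset.mul_sum, hw]
    simp
    ring
  have hk : ∀ k : Fin n, bil X (fun i => (if i = k then (1 : ℝ) else 0) - w k * w i)
        (fun i => (if i = k then (1 : ℝ) else 0) - w k * w i) ≤
      (1 - w k ^ 2) * (bil X w w + 2 * μ) := by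
    intro k
    obtain ⟨v, hv⟩ : ∃ v : Fin n → ℝ,
        v = fun i => (if i = k then (1 : ℝ) else 0) - w k * w i := ⟨_, rfl⟩
    have hv2 : ∑ i, v i ^ 2 = 1 - w k ^ 2 := by rw [hv]; exact hs k
    have hvw : ∑ i, v i * w i = 0 := by
      rw [hv]
      have h1 : ∀ i : Fin n, ((if i = k then (1 : ℝ) else 0) - w k * w i) * w i =
          (if i = k then w i else 0) - w k * w i ^ 2 := by
        intro i
        split_ifs <;> ring
      simp only [h1, Finset.sum_sub_distrib, ← Finset.mul_sum, hw]
      simp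
    rw [← hv, ← hv2]
    have h0 : 0 ≤ ∑ i, v i ^ 2 := Finset.sum_nonneg fun _ _ => sq_nonneg _
    rcases h0.eq_or_lt with h0 | h0
    · have hz : ∀ i, v i = 0 := by
        intro i
        have := (Finset.sum_eq_zero_iff_of_nonneg (fun i _ => sq_nonneg (v i))).1 h0.symm i
          (Finset.mem_univ i)
        exact pow_eq_zero_iff (two_ne_zero) |>.1 this
      rw [← h0]
      simp [bil, hz]
    · obtain ⟨s, hs0, hs1⟩ : ∃ s : ℝ, 0 < s ∧ s ^ 2 * ∑ i, v i ^ 2 = 1 := by
        refine ⟨(Real.sqrt (∑ i, v i ^ 2))⁻¹, by positivity, ?_⟩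
        rw [inv_pow, Real.sq_sqrt h0.le]
        exact inv_mul_cancel₀ h0.ne'
      have hop : OP (fun i => s * v i) w := by
        refine ⟨?_, hw, ?_⟩
        · simp only [mul_pow, ← Finset.mul_sum]
          exact hs1
        · have : ∀ i, s * v i * w i = s * (v i * w i) := fun i => by ring
          simp only [this, ← Finset.mul_sum, hvw, mul_zero]
      have h1 := hX _ _ hop
      rw [bil_self_smul] at h1
      have h2 : s ^ 2 * bil X v v ≤ s ^ 2 * ((∑ i, v i ^ 2) * (bil X w w + 2 * μ)) := by
        rw [← mul_assoc, hs1, one_mul]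
        linarith
      exact le_of_mul_le_mul_left h2 (by positivity)
  refine (Finset.sum_le_sum fun k _ => hk k).trans (le_of_eq ?_)
  rw [← Finset.sum_mul]
  congr 1
  rw [Finset.sum_sub_distrib, hw]
  simp

/-- the norm of the traceless part against one value -/
theorem ip0_ge (hn : 2 ≤ n) (X : Fin n → Fin n → ℝ) (w : Fin n → ℝ)
    (hw : ∑ i, w i ^ 2 = 1) (t : ℝ) (ht : t = mt X - bil X w w) :
    t ^ 2 * n / (n - 1) ≤ ip0 X X := by
  have hn0 : (0 : ℝ) < n := by positivity
  have hn1 : (0 : ℝ) < (n : ℝ) - 1 := by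
    have : (2 : ℝ) ≤ n := by exact_mod_cast hn
    linarith
  obtain ⟨α, hα⟩ : ∃ α : ℝ, α = -(t * n / (n - 1)) := ⟨_, rfl⟩
  have h1 : 0 ≤ ∑ i, ∑ j, (tl X i j - α * (w i * w j) + if i = j then α / n else 0) ^ 2 :=
    Finset.sum_nonneg fun _ _ => Finset.sum_nonneg fun _ _ => sq_nonneg _
  have hA : ∑ i, ∑ j, tl X i j * (w i * w j) = -t := by
    have h2 : ∀ i j : Fin n, tl X i j * (w i * w j) =
        X i j * (w i * w j) - (if i = j then mt X * w i ^ 2 else 0) := by
      intro i j
      simp only [tl]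
      split_ifs with h
      · subst h
        ring
      · ring
    simp only [h2, Finset.sum_sub_distrib]
    simp only [Finset.sum_ite_eq, Finset.mem_univ, if_true, ← Finset.mul_sum, hw]
    rw [ht]
    simp only [bil]
    ring
  have hB : ∑ i, tl X i i = 0 := by
    simp only [tl, if_true, Finset.sum_sub_distrib, Finset.sum_const, Finset.card_univ,
      Fintype.card_fin, nsmul_eq_mul, Helper35.HC.mt]
    field_simp
    ring
  have hC : ∑ i, ∑ j, (w i * w j) ^ 2 = 1 := by
    have h2 : ∀ i j : Fin n, (w i * w j) ^ 2 = w i ^ 2 * w j ^ 2 := fun i j => by ring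
    simp only [h2, ← Finset.mul_sum, ← Finset.sum_mul, hw]
    norm_num
  have h3 : ∀ i j : Fin n, (tl X i j - α * (w i * w j) + if i = j then α / n else 0) ^ 2 =
      tl X i j * tl X i j + α ^ 2 * (w i * w j) ^ 2 - 2 * α * (tl X i j * (w i * w j)) +
        (if i = j then 2 * (α / n) * tl X i i - 2 * α * (α / n) * w i ^ 2 + (α / n) ^ 2 else 0) := by
    intro i j
    split_ifs with h
    · subst h
      ring
    · ring
  simp only [h3, Finset.sum_add_distrib, Finset.sum_sub_distrib] at h1
  simp only [Finset.sum_ite_eq, Finset.mem_univ, if_true, ← Finset.mul_sum, hA, hC,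
    Finset.sum_add_distrib, Finset.sum_sub_distrib, hB, hw, Finset.sum_const, Finset.card_univ,
    Fintype.card_fin, nsmul_eq_mul] at h1
  have h4 : ip0 X X = ∑ i, ∑ j, tl X i j * tl X i j := rfl
  rw [h4]
  have h5 : t ^ 2 * n / (n - 1) = -(α ^ 2 * 1 - 2 * α * -t +
      (2 * (α / n) * 0 - 2 * α * (α / n) * 1 + n * (α / n) ^ 2)) := by
    rw [hα]
    field_simp
    ring
  rw [h5]
  linarith

end

theorem hPI2 (hSPL : StSPL) (hSQB : StSQB) : StPI2 := by
  intro n N hn A K b r μ E G x ε ξ η x₀ hK hb hKB hμ hmax hE hε0 hε1 hx hG hxG w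
  have hr : 0 < r := hKB.r0
  have hn0 : (0 : ℝ) < n := by positivity
  have hn3 : (3 : ℝ) ≤ n := by exact_mod_cast hn
  have hn1 : (0 : ℝ) < (n : ℝ) - 1 := by linarith
  obtain ⟨hH, hYY, hth, -⟩ := hSQB n N (by omega) A K b r ξ η x₀ hK hb hKB _ rfl
  -- the inner product
  have hin : ∀ i j, (inner ℝ (A i j) (Hv A) : ℝ) =
      n * (mt K * K i j + mt b * b i j + if i = j then r else 0) := by
    intro i j
    have e1 : (inner ℝ ξ ξ : ℝ) = 1 := by
      rw [real_inner_self_eq_norm_sq, hKB.nξ]; norm_num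
    have e2 : (inner ℝ η η : ℝ) = 1 := by
      rw [real_inner_self_eq_norm_sq, hKB.nη]; norm_num
    have e3 : (inner ℝ x₀ x₀ : ℝ) = 1 / r := by
      rw [real_inner_self_eq_norm_sq, hKB.nx]
    have e4 := hKB.ξη
    have e5 := hKB.ξx
    have e6 := hKB.ηx
    have e7 : (inner ℝ η ξ : ℝ) = 0 := by rw [real_inner_comm]; exact e4
    have e8 : (inner ℝ x₀ ξ : ℝ) = 0 := by rw [real_inner_comm]; exact e5
    have e9 : (inner ℝ x₀ η : ℝ) = 0 := by rw [real_inner_comm]; exact e6
    have hAij : A i j = K i j • ξ + b i j • η - (if i = j then r else 0) • x₀ := by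
      rw [hKB.eq]
    rw [hH, hAij]
    simp only [inner_smul_right, inner_smul_left, inner_add_left, inner_add_right,
      inner_sub_left, inner_sub_right, e1, e2, e3, e4, e5, e6, e7, e8, e9]
    simp only [conj_trivial]
    split_ifs
    · field_simp
      ring
    · ring
  have hbig : (inner ℝ (bilV A w w) (Hv A) : ℝ) =
      n * (mt K * bil K w w + mt b * bil b w w + r * ∑ i, w i ^ 2) := by
    simp only [bilV, sum_inner, inner_smul_left, conj_trivial, hin]
    have h1 : ∀ i j : Fin n, w i * w j * (n * (mt K * K i j + mt b * b i j +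
        if i = j then r else 0)) = n * (mt K * (K i j * (w i * w j))) +
          n * (mt b * (b i j * (w i * w j))) + (if i = j then n * (r * w i ^ 2) else 0) := by
      intro i j
      split_ifs with h
      · subst h
        ring
      · ring
    simp only [h1, Finset.sum_add_distrib, ← Finset.mul_sum, Finset.sum_ite_eq, Finset.mem_univ,
      if_true, bil]
    ring
  -- reduction to unit vectors
  have hunit : ∀ w : Fin n → ℝ, ∑ i, w i ^ 2 = 1 →
      ε * (mt K ^ 2 + mt b ^ 2 + r) ≤ mt K * bil K w w + mt b * bil b w w + r := by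
    intro w hw
    obtain ⟨s, hs⟩ : ∃ s : ℝ, s = Real.sqrt (mt K ^ 2 + mt b ^ 2) := ⟨_, rfl⟩
    have hs0 : 0 ≤ s := by rw [hs]; exact Real.sqrt_nonneg _
    have hs2 : s ^ 2 = mt K ^ 2 + mt b ^ 2 := by
      rw [hs]; exact Real.sq_sqrt (by positivity)
    rcases hs0.eq_or_lt with h0 | h0
    · have h1 : mt K ^ 2 + mt b ^ 2 = 0 := by rw [← hs2, ← h0]; norm_num
      have h2 : mt K = 0 := by
        have : mt K ^ 2 = 0 := le_antisymm (by linarith only [h1, sq_nonneg (mt b)]) (sq_nonneg _)
        exact pow_eq_zero_iff (two_ne_zero) |>.1 this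
      have h3 : mt b = 0 := by
        have : mt b ^ 2 = 0 := le_antisymm (by linarith only [h1, sq_nonneg (mt K)]) (sq_nonneg _)
        exact pow_eq_zero_iff (two_ne_zero) |>.1 this
      rw [h2, h3]
      have : ε * r ≤ 1 * r := mul_le_mul_of_nonneg_right hε1 hr.le
      linarith only [this]
    · obtain ⟨a, ha⟩ : ∃ a : ℝ, a = mt K / s := ⟨_, rfl⟩
      obtain ⟨a', ha'⟩ : ∃ a' : ℝ, a' = mt b / s := ⟨_, rfl⟩
      have hKa : mt K = s * a := by rw [ha]; field_simp
      have hba : mt b = s * a' := by rw [ha']; field_simp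
      have haa : a ^ 2 + a' ^ 2 = 1 := by
        rw [ha, ha', div_pow, div_pow, ← add_div, ← hs2]
        exact div_self (by positivity)
      obtain ⟨h1, -, -⟩ := hSPL n (by omega) K b μ hK hb hμ hmax a a' haa
      obtain ⟨X, hX⟩ : ∃ X : Fin n → Fin n → ℝ, X = lc a a' K b := ⟨_, rfl⟩
      rw [← hX] at h1
      have hmt : mt X = s := by
        rw [hX, mt_lc, hKa, hba]
        linear_combination s * haa
      have hXw : s * bil X w w = mt K * bil K w w + mt b * bil b w w := by
        rw [hX, bil_lc, hKa, hba]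
        ring
      obtain ⟨t, ht⟩ : ∃ t : ℝ, t = mt X - bil X w w := ⟨_, rfl⟩
      have hmean := mean_le X μ h1 w hw
      have htr : ∑ i, X i i = n * mt X := by
        rw [Helper35.HC.mt]; field_simp
      rw [htr] at hmean
      have h2 : n * t ≤ 2 * (n - 1) * μ := by
        rw [ht]
        linarith
      have h3 := ip0_ge (by omega) X w hw t ht
      have h4 : ip0 X X ≤ thA2 A := by
        have := ip0_rot a a' haa K b
        have h5 := ip0_nonneg (lc (-a') a K b)
        rw [hth, hX]
        linarith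
      have hgoal : s * t ≤ (1 - ε) * (mt K ^ 2 + mt b ^ 2 + r) := by
        have hk0 : 0 ≤ (1 - ε) * (mt K ^ 2 + mt b ^ 2 + r) := by
          apply mul_nonneg (by linarith); positivity
        by_cases htp : t ≤ 0
        · exact le_trans (mul_nonpos_of_nonneg_of_nonpos hs0 htp) hk0
        · have htp : 0 < t := not_le.1 htp
          obtain ⟨c3, hc3⟩ : ∃ c3 : ℝ,
              c3 = (n : ℝ) ^ 2 / (4 * (n - 1) ^ 2) + E / (n - 1) := ⟨_, rfl⟩
          have hc30 : 0 < c3 := by
            rw [hc3]
            have : 0 < (n : ℝ) ^ 2 / (4 * (n - 1) ^ 2) := by positivity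
            have : 0 ≤ E / ((n : ℝ) - 1) := by positivity
            linarith
          have h5 : (n : ℝ) ^ 2 / (4 * (n - 1) ^ 2) * t ^ 2 ≤ μ ^ 2 := by
            have h6 : (n * t) ^ 2 ≤ (2 * (n - 1) * μ) ^ 2 := by
              apply pow_le_pow_left₀ (by positivity) h2
            rw [div_mul_eq_mul_div, div_le_iff₀ (by positivity)]
            calc (n : ℝ) ^ 2 * t ^ 2 = (n * t) ^ 2 := by ring
              _ ≤ (2 * (n - 1) * μ) ^ 2 := h6
              _ = μ ^ 2 * (4 * (n - 1) ^ 2) := by ring
          have h6 : E / (n - 1) * t ^ 2 ≤ E / n * thA2 A := by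
            have h7 : E / n * (t ^ 2 * n / (n - 1)) ≤ E / n * thA2 A :=
              mul_le_mul_of_nonneg_left (h3.trans h4) (by positivity)
            refine le_trans (le_of_eq ?_) h7
            field_simp
          have h7 : c3 * t ^ 2 ≤ r * G := by
            rw [hc3]
            linarith
          have hxr : x * r = s ^ 2 := by
            rw [hx, hs2]; field_simp
          have hx0 : 0 ≤ x := by rw [hx]; positivity
          have h8 : c3 * (s * t) ^ 2 ≤ c3 * ((1 - ε) * (mt K ^ 2 + mt b ^ 2 + r)) ^ 2 := by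
            have hκ : mt K ^ 2 + mt b ^ 2 + r = r * (1 + x) := by
              rw [← hs2, ← hxr]; ring
            rw [hκ]
            calc c3 * (s * t) ^ 2 = (x * r) * (c3 * t ^ 2) := by rw [hxr]; ring
              _ ≤ (x * r) * (r * G) := mul_le_mul_of_nonneg_left h7 (by positivity)
              _ = r ^ 2 * (x * G) := by ring
              _ ≤ r ^ 2 * ((1 - ε) ^ 2 * c3 * (1 + x) ^ 2) := by
                  refine mul_le_mul_of_nonneg_left ?_ (by positivity)
                  rw [hc3]
                  exact hxG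
              _ = c3 * ((1 - ε) * (r * (1 + x))) ^ 2 := by ring
          have h9 := le_of_mul_le_mul_left h8 hc30
          exact le_of_sq_le_sq h9 hk0
      have h10 : s * bil X w w = s ^ 2 - s * t := by
        rw [ht, hmt]; ring
      rw [← hXw, h10, hs2]
      linarith only [hgoal]
  -- the general case
  rw [hbig, hYY]
  have h0 : 0 ≤ ∑ i, w i ^ 2 := Finset.sum_nonneg fun _ _ => sq_nonneg _
  have hmain : ε * (mt K ^ 2 + mt b ^ 2 + r) * (∑ i, w i ^ 2) ≤
      mt K * bil K w w + mt b * bil b w w + r * ∑ i, w i ^ 2 := by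
    rcases h0.eq_or_lt with h0 | h0
    · have hz : ∀ i, w i = 0 := by
        intro i
        have := (Finset.sum_eq_zero_iff_of_nonneg (fun i _ => sq_nonneg (w i))).1 h0.symm i
          (Finset.mem_univ i)
        exact pow_eq_zero_iff (two_ne_zero) |>.1 this
      rw [← h0]
      simp [bil, hz]
    · obtain ⟨s, hs0, hs1⟩ : ∃ s : ℝ, 0 < s ∧ s ^ 2 * ∑ i, w i ^ 2 = 1 := by
        refine ⟨(Real.sqrt (∑ i, w i ^ 2))⁻¹, by positivity, ?_⟩
        rw [inv_pow, Real.sq_sqrt h0.le]
        exact inv_mul_cancel₀ h0.ne'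
      have h1 := hunit (fun i => s * w i) (by
        simp only [mul_pow, ← Finset.mul_sum]
        exact hs1)
      rw [bil_self_smul, bil_self_smul] at h1
      have h2 : s ^ 2 * (ε * (mt K ^ 2 + mt b ^ 2 + r) * (∑ i, w i ^ 2)) ≤
          s ^ 2 * (mt K * bil K w w + mt b * bil b w w + r * ∑ i, w i ^ 2) := by
        have h3 : s ^ 2 * (ε * (mt K ^ 2 + mt b ^ 2 + r) * (∑ i, w i ^ 2)) =
            ε * (mt K ^ 2 + mt b ^ 2 + r) * (s ^ 2 * ∑ i, w i ^ 2) := by ring
        have h4 : s ^ 2 * (mt K * bil K w w + mt b * bil b w w + r * ∑ i, w i ^ 2) =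
            mt K * (s ^ 2 * bil K w w) + mt b * (s ^ 2 * bil b w w) +
              r * (s ^ 2 * ∑ i, w i ^ 2) := by ring
        rw [h3, h4, hs1, mul_one, mul_one]
        exact h1
      exact le_of_mul_le_mul_left h2 (by positivity)
  calc ε / n * (n ^ 2 * (mt K ^ 2 + mt b ^ 2 + r)) * ∑ i, w i ^ 2
      = n * (ε * (mt K ^ 2 + mt b ^ 2 + r) * ∑ i, w i ^ 2) := by field_simp
    _ ≤ _ := mul_le_mul_of_nonneg_left hmain hn0.le

end Pool.Agent.Helper62.HC
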