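import Mathlib
import Pool.Agent.Helper35.HC.StF

/-!
Project HC, module CMP: the running maximum and the minimum are comparable.
-/

set_option autoImplicit false

namespace Pool.Agent.Helper62.HC

open Helper35.HC Helper35.PI Helper35.PI2 Helper32.CL Helper35.MS Helper35.HSF
open scoped ContDiff Manifold Topology ENNReal BigOperators
open MeasureTheory Set Filter

theorem hCMP (hRCM : StRCM) (hMNP : StMNP) (hPKD : StPKD) (hI4J : StI4J) : StCMP := by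
  intro n hn N M _ _ _ _ _ _ T F ts κ₀ δ t₂ C σ Λ₀ hP
  have hd := hP.d
  have hts := hd.ts0
  have ht2 := hP.t2
  have hT := hd.T1
  have hn2 : (2 : ℝ) ≤ n := by exact_mod_cast hn
  obtain ⟨C', σ', Λ₁', hC', hσ', hσσ, hΛ', hsm', hrec'⟩ :=
    hRCM n hn N M T F ts κ₀ δ t₂ C σ Λ₀ hP
  obtain ⟨Λ₁, hΛ₁⟩ : ∃ Λ₁ : ℝ, Λ₁ = max Λ₁' (2 * |κ₀| + 2) := ⟨_, rfl⟩
  have hl1 : Λ₁' ≤ Λ₁ := by rw [hΛ₁]; exact le_max_left _ _
  have hl2 : 2 * |κ₀| + 2 ≤ Λ₁ := by rw [hΛ₁]; exact le_max_right _ _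
  -- the function
  obtain ⟨Y, hY⟩ : ∃ Y : M × ℝ → ℝ, Y = fun z => ‖HH (n := n) F z.1 z.2‖ ^ 2 := ⟨_, rfl⟩
  have hYq : ∀ q t, Y (q, t) = ‖HH (n := n) F q t‖ ^ 2 := by intro q t; rw [hY]
  have hYc : ContinuousOn Y (univ ×ˢ Ioo 0 T) := by
    have h1 := (hI4J n N M (Ioo 0 T) F hd.fl.toIsImmJ).2.1
    rw [hY]
    exact (ContinuousOn.norm h1).pow 2
  have hmax : ∀ b ∈ Ico ts T, ∃ (q : M) (s : ℝ), s ∈ Icc ts b ∧
      ∀ (p : M) (r : ℝ), r ∈ Icc ts b → Y (p, r) ≤ Y (q, s) := by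
    intro b hb
    have hK : IsCompact ((univ : Set M) ×ˢ Icc ts b) := isCompact_univ.prod isCompact_Icc
    have hne : ((univ : Set M) ×ˢ Icc ts b).Nonempty :=
      univ_nonempty.prod (nonempty_Icc.2 hb.1)
    have hsub : ((univ : Set M) ×ˢ Icc ts b) ⊆ univ ×ˢ Ioo 0 T := by
      refine Set.prod_mono_right ?_
      intro s hs
      exact ⟨lt_of_lt_of_le hts.1 hs.1, lt_of_le_of_lt hs.2 hb.2⟩
    obtain ⟨z, hz, hzm⟩ := hK.exists_isMaxOn hne (hYc.mono hsub)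
    refine ⟨z.1, z.2, hz.2, fun p r hr => ?_⟩
    exact hzm (⟨mem_univ _, hr⟩ : ((p, r) : M × ℝ) ∈ (univ : Set M) ×ˢ Icc ts b)
  obtain ⟨qb, tb, htb, hB⟩ := hmax t₂ ⟨ht2.1.le, ht2.2⟩
  obtain ⟨t', ht', ht2', q', hq'⟩ := hd.unb (max (Y (qb, tb)) Λ₁) t₂ ht2.2
  obtain ⟨q₃, t₃, ht₃, hm₃⟩ := hmax t' ⟨(ht2.1.trans ht2').le, ht'.2⟩
  have hY3 : max (Y (qb, tb)) Λ₁ < Y (q₃, t₃) := by
    refine lt_of_lt_of_le hq' ?_
    rw [← hYq]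
    exact hm₃ q' t' ⟨(ht2.1.trans ht2').le, le_rfl⟩
  have h23 : t₂ < t₃ := by
    by_contra hcon
    have h1 := hB q₃ t₃ ⟨ht₃.1, not_lt.1 hcon⟩
    exact absurd (lt_of_le_of_lt (le_max_left _ _) hY3) (not_lt.2 h1)
  have h3T : t₃ < T := lt_of_le_of_lt ht₃.2 ht'.2
  refine ⟨C', σ', t₃, hC', hσ', hσσ, ⟨h23.le, h3T⟩, ?_⟩
  intro t ht
  have htsT : t ∈ Ico ts T := ⟨ht₃.1.trans ht.1, ht.2⟩
  have hstar : ∃ (q : M) (s : ℝ), s ∈ Icc t₃ t ∧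
      ∀ (p : M) (r : ℝ), r ∈ Icc ts t → Y (p, r) ≤ Y (q, s) := by
    obtain ⟨q, s, hs, hm⟩ := hmax t htsT
    by_cases hst : t₃ ≤ s
    · exact ⟨q, s, ⟨hst, hs.2⟩, hm⟩
    · refine ⟨q₃, t₃, ⟨le_rfl, ht.1⟩, fun p r hr => (hm p r hr).trans ?_⟩
      exact hm₃ q s ⟨hs.1, ((not_le.1 hst).le).trans ht₃.2⟩
  obtain ⟨q, s, hs, hm⟩ := hstar
  obtain ⟨Λ, hΛ⟩ : ∃ Λ : ℝ, Λ = Y (q, s) := ⟨_, rfl⟩
  have hΛ1 : Λ₁ ≤ Λ := by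
    have h1 := hm q₃ t₃ ⟨ht₃.1, ht.1⟩
    have h2 := (lt_of_le_of_lt (le_max_right _ _) hY3).le
    rw [hΛ]
    exact h2.trans h1
  have hsT : s ∈ Ico t₂ T := ⟨h23.le.trans hs.1, lt_of_le_of_lt hs.2 ht.2⟩
  have hsT' : s ∈ Ico ts T := ⟨ht2.1.le.trans hsT.1, hsT.2⟩
  have hsmall : C' * Λ ^ (-σ') ≤ 1 / 2 := hsm' Λ (hl1.trans hΛ1)
  have hΛpos : 0 < Λ := by
    have := abs_nonneg κ₀
    linarith
  have hz0 : ∀ p, (1 - C' * Λ ^ (-σ')) * Λ ≤ ZT n F p s := by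
    refine hrec' s hsT q Λ (by rw [hΛ, hYq]) (hl1.trans hΛ1) ?_
    intro r hr p
    rw [← hYq, hΛ]
    exact hm p r ⟨hr.1, hr.2.trans hs.2⟩
  have hhalf : Λ / 2 ≤ (1 - C' * Λ ^ (-σ')) * Λ := by
    have : 1 / 2 ≤ 1 - C' * Λ ^ (-σ') := by linarith
    nlinarith
  have hzpos : 0 < (1 - C' * Λ ^ (-σ')) * Λ := by linarith
  have hzk : κ₀ < (1 - C' * Λ ^ (-σ')) * Λ := by
    have := le_abs_self κ₀
    linarith
  obtain ⟨hm1, hm2⟩ := hMNP n hn N M T F ts κ₀ δ hd s hsT' _ hzpos hzk hz0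
  have hbd : ∀ r ∈ Icc ts t, ∀ p, ‖HH (n := n) F p r‖ ^ 2 ≤ Λ := by
    intro r hr p
    rw [← hYq, hΛ]
    exact hm p r hr
  have ht2T : t ∈ Ico t₂ T := ⟨h23.le.trans ht.1, ht.2⟩
  refine ⟨Λ, ?_, hsmall, fun p => hbd t ⟨htsT.1, le_rfl⟩ p, ?_, ?_⟩
  · have := abs_nonneg κ₀
    linarith
  · refine le_trans ?_ hm1
    have hn0 : 0 ≤ 2 / (n : ℝ) := by positivity
    apply mul_le_mul_of_nonneg_left _ hn0
    apply mul_le_mul_of_nonneg_left _ hzpos.le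
    linarith [hs.2]
  · intro p
    refine ⟨?_, hP.th t ht2T Λ ((hΛ'.trans hl1).trans hΛ1) hbd p,
      hP.eh t ht2T Λ ((hΛ'.trans hl1).trans hΛ1) hbd p⟩
    have h1 := hm2 t ⟨hs.2, ht.2⟩ p
    refine h1.trans ?_
    obtain ⟨G, R, Z, a, w, _, _, _, hθ, _⟩ := hPKD n hn N M T F ts κ₀ δ hd t htsT p _ _ _ rfl rfl rfl
    rw [ZT]
    have h2 : 0 ≤ n * (n + 2) / (2 * ((n : ℝ) - 1)) * thN n F p t := by
      apply mul_nonneg _ hθ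
      apply div_nonneg
      · positivity
      · linarith
    linarith

end Pool.Agent.Helper62.HC
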