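import Pool.Agent.Helper35.HC.StE
import Pool.Agent.Helper35.PI.St2

set_option autoImplicit false

/-!
# Module PIE of project HC: pointwise estimates in the good set
-/

namespace Pool.Agent.Helper62.HC

open Helper35.HC Helper35.HSF Helper35.MS Helper35.PI Helper35.PI2 Helper32.CL
open scoped ContDiff Manifold Topology ENNReal BigOperators
open MeasureTheory Set Filter

section Alg

variable {n N : ℕ} (L : EE (n + 1) →ₗᵢ[ℝ] EE N)

theorem inner_Pj (v : EE N) (x : EE (n + 1)) :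
    (inner ℝ (Pj L v) x : ℝ) = inner ℝ v (L x) := by
  rw [Pj, ContinuousLinearMap.adjoint_inner_left]
  rfl

theorem Pj_L (x : EE (n + 1)) : Pj L (L x) = x := by
  refine ext_inner_right ℝ fun y => ?_
  rw [inner_Pj]
  exact L.inner_map_map x y

theorem Pj_Qj (v : EE N) : Pj L (Qj L v) = 0 := by
  rw [Qj, map_sub, Pj_L, sub_self]

theorem inner_Qj_L (v : EE N) (x : EE (n + 1)) : (inner ℝ (Qj L v) (L x) : ℝ) = 0 := by
  rw [← inner_Pj, Pj_Qj, inner_zero_left]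

theorem Qj_symm (v w : EE N) : (inner ℝ (Qj L v) w : ℝ) = inner ℝ v (Qj L w) := by
  have h1 : w = L (Pj L w) + Qj L w := by rw [Qj]; abel
  have h2 : v = L (Pj L v) + Qj L v := by rw [Qj]; abel
  have h3 : (inner ℝ (Qj L v) w : ℝ) = inner ℝ (Qj L v) (Qj L w) := by
    conv_lhs => rw [h1]
    rw [inner_add_right, inner_Qj_L, zero_add]
  have h4 : (inner ℝ v (Qj L w) : ℝ) = inner ℝ (Qj L v) (Qj L w) := by
    conv_lhs => rw [h2]
    rw [inner_add_left, real_inner_comm, inner_Qj_L, zero_add]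
  rw [h3, h4]

theorem nsq_dec (v : EE N) : ‖v‖ ^ 2 = ‖Pj L v‖ ^ 2 + ‖Qj L v‖ ^ 2 := by
  have h1 : v = L (Pj L v) + Qj L v := by rw [Qj]; abel
  have h2 : ‖v‖ ^ 2 = ‖L (Pj L v) + Qj L v‖ ^ 2 := by rw [← h1]
  rw [h2, norm_add_sq_real, real_inner_comm, inner_Qj_L, LinearIsometry.norm_map]
  ring

theorem nPj_le (v : EE N) : ‖Pj L v‖ ≤ ‖v‖ := by
  have := nsq_dec L v
  exact le_of_sq_le_sq (by nlinarith [sq_nonneg ‖Qj L v‖]) (norm_nonneg _)

theorem nQj_le (v : EE N) : ‖Qj L v‖ ≤ ‖v‖ := by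
  have := nsq_dec L v
  exact le_of_sq_le_sq (by nlinarith [sq_nonneg ‖Pj L v‖]) (norm_nonneg _)

theorem nsq_ee (u : EE N) : ‖u‖ ^ 2 = ∑ i : Fin N, (inner ℝ u (ee i) : ℝ) ^ 2 := by
  rw [EuclideanSpace.norm_sq_eq]
  refine Finset.sum_congr rfl fun i _ => ?_
  rw [ee, EuclideanSpace.inner_single_right]
  simp

theorem nQj_sq (v : EE N) : ‖Qj L v‖ ^ 2 = ∑ i : Fin N, (inner ℝ v (Qj L (ee i)) : ℝ) ^ 2 := by
  rw [nsq_ee]
  exact Finset.sum_congr rfl fun i _ => by rw [Qj_symm]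

theorem Qj_add (v w : EE N) : Qj L (v + w) = Qj L v + Qj L w := by
  simp only [Qj, map_add]; abel

theorem Qj_sub (v w : EE N) : Qj L (v - w) = Qj L v - Qj L w := by
  simp only [Qj, map_sub]; abel

theorem Qj_smul (c : ℝ) (v : EE N) : Qj L (c • v) = c • Qj L v := by
  simp only [Qj, map_smul, smul_sub]

/-- the numbers in (3) and (4) -/
theorem num (l k δ : ℝ) (hl : 0 < l) (hδ : 0 < δ) (hδ1 : δ ≤ 1 / 20) (hk1 : (1 - δ) * l ≤ k)
    (hk2 : k ≤ l) : 0 < k ∧ 1 / l ≤ 1 / k ∧ 1 / k ≤ (1 + 2 * δ) / l := by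
  have hk : 0 < k := lt_of_lt_of_le (by nlinarith) hk1
  refine ⟨hk, one_div_le_one_div_of_le hk hk2, ?_⟩
  rw [div_le_div_iff₀ hk hl]
  nlinarith [mul_pos hl hδ]

/-- (3) and (4): `u` is `F - c₀`, `d` is `c - c₀`, `h` the unit vector in the direction of `H` -/
theorem est34 (l k δ : ℝ) (hl : 0 < l) (hδ : 0 < δ) (hδ1 : δ ≤ 1 / 20) (hk1 : (1 - δ) * l ≤ k)
    (hk2 : k ≤ l) (u d h : EE N) (hu : u = d - (1 / k) • h) (hd : ‖d‖ ≤ δ / l) (hh : ‖h‖ = 1)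
    (hQ : ‖Qj L h‖ ≤ δ) :
    |l * ‖Pj L u‖ - 1| ≤ 3 * δ ∧ ‖Qj L u‖ ≤ 3 * δ / l ∧ ‖u‖ ≤ 2 / l := by
  obtain ⟨hk, h1, h2⟩ := num l k δ hl hδ hδ1 hk1 hk2
  have hP : 1 - δ ≤ ‖Pj L h‖ := by
    have h3 := nsq_dec L h
    rw [hh] at h3
    have h4 : ‖Qj L h‖ ^ 2 ≤ δ ^ 2 := pow_le_pow_left₀ (norm_nonneg _) hQ 2
    have h5 : (1 - δ) ^ 2 ≤ ‖Pj L h‖ ^ 2 := by nlinarith
    exact le_of_sq_le_sq h5 (norm_nonneg _)
  have hP1 : ‖Pj L h‖ ≤ 1 := by
    have := nPj_le L h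
    rwa [hh] at this
  have hPd : ‖Pj L d‖ ≤ δ / l := (nPj_le L d).trans hd
  have hQd : ‖Qj L d‖ ≤ δ / l := (nQj_le L d).trans hd
  have hk0 : 0 < 1 / k := by positivity
  have hn : ‖(1 / k) • Pj L h‖ = 1 / k * ‖Pj L h‖ := by
    rw [norm_smul, Real.norm_of_nonneg hk0.le]
  have hPu : Pj L u = Pj L d - (1 / k) • Pj L h := by
    rw [hu, map_sub, map_smul]
  have hQu : Qj L u = Qj L d - (1 / k) • Qj L h := by
    rw [hu, Qj_sub, Qj_smul]
  have hup : ‖Pj L u‖ ≤ δ / l + 1 / k := by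
    rw [hPu]
    refine (norm_sub_le _ _).trans ?_
    rw [hn]
    have : 1 / k * ‖Pj L h‖ ≤ 1 / k * 1 := mul_le_mul_of_nonneg_left hP1 hk0.le
    linarith
  have hlo : 1 / k * (1 - δ) - δ / l ≤ ‖Pj L u‖ := by
    rw [hPu, ← norm_neg, neg_sub]
    refine le_trans ?_ (norm_sub_norm_le _ _)
    rw [hn]
    have : 1 / k * (1 - δ) ≤ 1 / k * ‖Pj L h‖ := mul_le_mul_of_nonneg_left hP hk0.le
    linarith
  have e1 : l * (δ / l) = δ := by field_simp
  have e2 : l * ((1 + 2 * δ) / l) = 1 + 2 * δ := by field_simp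
  have e3 : l * (1 / l) = 1 := by field_simp
  refine ⟨?_, ?_, ?_⟩
  · rw [abs_le]
    constructor
    · have h6 : l * (1 / l * (1 - δ) - δ / l) ≤ l * ‖Pj L u‖ := by
        refine mul_le_mul_of_nonneg_left (le_trans ?_ hlo) hl.le
        have : 1 / l * (1 - δ) ≤ 1 / k * (1 - δ) :=
          mul_le_mul_of_nonneg_right h1 (by linarith)
        linarith
      have h7 : l * (1 / l * (1 - δ) - δ / l) = 1 - 2 * δ := by
        field_simp
        ring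
      linarith
    · have h6 : l * ‖Pj L u‖ ≤ l * (δ / l + (1 + 2 * δ) / l) :=
        mul_le_mul_of_nonneg_left (by linarith) hl.le
      rw [mul_add, e1, e2] at h6
      linarith
  · rw [hQu]
    refine (norm_sub_le _ _).trans ?_
    rw [norm_smul, Real.norm_of_nonneg hk0.le]
    have h6 : 1 / k * ‖Qj L h‖ ≤ (1 + 2 * δ) / l * δ :=
      mul_le_mul h2 hQ (norm_nonneg _) (by positivity)
    have h7 : (1 + 2 * δ) / l * δ ≤ 2 * δ / l := by
      rw [div_mul_eq_mul_div, div_le_div_iff_of_pos_right hl]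
      nlinarith
    have h8 : 3 * δ / l = δ / l + 2 * δ / l := by ring
    linarith
  · rw [hu]
    refine (norm_sub_le _ _).trans ?_
    rw [norm_smul, Real.norm_of_nonneg hk0.le, hh, mul_one]
    have h8 : δ / l + (1 + 2 * δ) / l ≤ 2 / l := by
      rw [← add_div, div_le_div_iff_of_pos_right hl]
      linarith
    linarith

/-- (6): `v` a tangent vector, `p` the unit vector, `X'` the projection of `v` -/
theorem est6 (l R δ : ℝ) (hl : 0 < l) (hδ : 0 < δ) (hδ1 : δ ≤ 1 / 20)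
    (hR : |l * R - 1| ≤ 3 * δ) (hR0 : 0 < R) (u v : EE N) (p : EE (n + 1))
    (hp : R • p = Pj L u) (hp1 : ‖p‖ = 1)
    (huv : |(inner ℝ v u : ℝ)| ≤ δ / l * ‖v‖) (hQ : ‖Qj L v‖ ≤ δ * ‖v‖) (hu : ‖u‖ ≤ 2 / l)
    (s : ℝ) (w : EE (n + 1)) (hw : w = (1 / R) • Pj L v + s • p) :
    l / 2 * ‖v‖ ≤ ‖w‖ := by
  have hR1 := (abs_le.1 hR).1
  have hR2 := (abs_le.1 hR).2
  -- the inner product of the projection with `p`
  have h1 : R * (inner ℝ (Pj L v) p : ℝ) = inner ℝ v u - inner ℝ (Qj L v) u := by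
    have e1 : R * (inner ℝ (Pj L v) p : ℝ) = inner ℝ (Pj L v) (R • p) := by
      rw [inner_smul_right]
    have e2 : u = L (Pj L u) + Qj L u := by rw [Qj]; abel
    have e3 : (inner ℝ v u : ℝ) = inner ℝ v (L (Pj L u)) + inner ℝ v (Qj L u) := by
      rw [← inner_add_right, ← e2]
    rw [e1, hp, inner_Pj, e3, Qj_symm]
    ring
  have h2 : |(inner ℝ (Qj L v) u : ℝ)| ≤ 2 * δ / l * ‖v‖ := by
    refine (abs_real_inner_le_norm _ _).trans ?_
    calc ‖Qj L v‖ * ‖u‖ ≤ (δ * ‖v‖) * (2 / l) :=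
          mul_le_mul hQ hu (norm_nonneg _) (by positivity)
      _ = 2 * δ / l * ‖v‖ := by ring
  have h3 : R * |(inner ℝ (Pj L v) p : ℝ)| ≤ 3 * δ / l * ‖v‖ := by
    have e0 : R * |(inner ℝ (Pj L v) p : ℝ)| = |R * (inner ℝ (Pj L v) p : ℝ)| := by
      rw [abs_mul, abs_of_pos hR0]
    rw [e0, h1]
    refine (abs_sub _ _).trans ?_
    have : 3 * δ / l * ‖v‖ = δ / l * ‖v‖ + 2 * δ / l * ‖v‖ := by ring
    linarith
  have hv0 : 0 ≤ ‖v‖ := norm_nonneg _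
  have h4 : |(inner ℝ (Pj L v) p : ℝ)| ≤ 4 * δ * ‖v‖ := by
    have h5 : (l * R) * |(inner ℝ (Pj L v) p : ℝ)| ≤ 3 * δ * ‖v‖ := by
      calc (l * R) * |(inner ℝ (Pj L v) p : ℝ)| = l * (R * |(inner ℝ (Pj L v) p : ℝ)|) := by ring
        _ ≤ l * (3 * δ / l * ‖v‖) := mul_le_mul_of_nonneg_left h3 hl.le
        _ = 3 * δ * ‖v‖ := by field_simp
    have h6 : (17 / 20) * |(inner ℝ (Pj L v) p : ℝ)| ≤ (l * R) * |(inner ℝ (Pj L v) p : ℝ)| :=
      mul_le_mul_of_nonneg_right (by linarith) (abs_nonneg _)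
    have h7 : 0 ≤ δ * ‖v‖ := by positivity
    linarith
  have h5 : (inner ℝ (Pj L v) p : ℝ) ^ 2 ≤ (4 * δ * ‖v‖) ^ 2 := by
    rw [← sq_abs]
    exact pow_le_pow_left₀ (abs_nonneg _) h4 2
  have h6 : ‖Pj L v‖ ^ 2 ≥ ‖v‖ ^ 2 - (δ * ‖v‖) ^ 2 := by
    have e1 := nsq_dec L v
    have e2 : ‖Qj L v‖ ^ 2 ≤ (δ * ‖v‖) ^ 2 := pow_le_pow_left₀ (norm_nonneg _) hQ 2
    linarith
  have h7 : ‖R • w‖ ^ 2 ≥ ‖Pj L v‖ ^ 2 - (inner ℝ (Pj L v) p : ℝ) ^ 2 := by
    have e1 : R • w = Pj L v + (R * s) • p := by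
      rw [hw, smul_add, smul_smul, smul_smul]
      congr 1
      rw [mul_one_div_cancel hR0.ne', one_smul]
    rw [e1, norm_add_sq_real, inner_smul_right, norm_smul, hp1, mul_one, Real.norm_eq_abs,
      sq_abs]
    nlinarith only [sq_nonneg ((inner ℝ (Pj L v) p : ℝ) + R * s)]
  rw [norm_smul, Real.norm_of_nonneg hR0.le, mul_pow] at h7
  have h8 : l ^ 2 * (R ^ 2 * ‖w‖ ^ 2) ≤ (23 / 20) ^ 2 * ‖w‖ ^ 2 := by
    have e1 : (l * R) ^ 2 ≤ (23 / 20) ^ 2 :=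
      pow_le_pow_left₀ (by positivity) (by linarith) 2
    calc l ^ 2 * (R ^ 2 * ‖w‖ ^ 2) = (l * R) ^ 2 * ‖w‖ ^ 2 := by ring
      _ ≤ _ := mul_le_mul_of_nonneg_right e1 (sq_nonneg _)
  have h9 : (383 / 400) * ‖v‖ ^ 2 ≤ R ^ 2 * ‖w‖ ^ 2 := by
    have e1 : δ ^ 2 ≤ 1 / 400 := by nlinarith
    have e2 : δ ^ 2 * ‖v‖ ^ 2 ≤ 1 / 400 * ‖v‖ ^ 2 := mul_le_mul_of_nonneg_right e1 (sq_nonneg _)
    nlinarith only [h5, h6, h7, e2]
  have h10 : (l / 2 * ‖v‖) ^ 2 ≤ ‖w‖ ^ 2 := by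
    have e1 : l ^ 2 * ((383 / 400) * ‖v‖ ^ 2) ≤ l ^ 2 * (R ^ 2 * ‖w‖ ^ 2) :=
      mul_le_mul_of_nonneg_left h9 (by positivity)
    have e2 : 0 ≤ l ^ 2 * ‖v‖ ^ 2 := by positivity
    nlinarith only [e1, e2, h8]
  exact le_of_sq_le_sq h10 (norm_nonneg _)

end Alg

theorem hPIE (hCDG : StCDG) (hNR : StNR) : StPIE := by
  intro n N hn M _ _ _ J F t l ε q₀ hSL L c₀ δ hδ hδ1 q hq
  obtain ⟨hq1, hq2, hq3⟩ := hq
  have hJ : IsImmJ (n := n) J F := hSL.fl.toIsImmJ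
  obtain ⟨d1, d2, d3, -, d5, -⟩ := hCDG n N M J F hJ t hSL.tJ q
  have hl := hSL.l0
  have hn0 : (0 : ℝ) < n := by
    have : 0 < n := by omega
    exact_mod_cast this
  obtain ⟨H, hH⟩ : ∃ H : EE N, H = HH (n := n) F q t := ⟨_, rfl⟩
  have hHne : H ≠ 0 := by rw [hH]; exact hSL.nz q t hSL.tJ
  have hHn : 0 < ‖H‖ := norm_pos_iff.2 hHne
  obtain ⟨f, hf⟩ : ∃ f : EE n → EE N, f = fun z => F ((chartAt (EE n) q).symm z) t := ⟨_, rfl⟩
  obtain ⟨y, hy⟩ : ∃ y : EE n, y = chartAt (EE n) q q := ⟨_, rfl⟩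
  have hcd : cd n (fun p => F p t) q = fderiv ℝ f y := by rw [hf, hy]; rfl
  have d1' : DifferentiableAt ℝ f y := by rw [hf, hy]; exact d1
  -- `H` is normal
  have hnor : ∀ v ∈ TS (n := n) F q t, (inner ℝ H v : ℝ) = 0 := by
    have hLI : LI (loc (n := n) F q t) (chartAt (EE n) q q) := hJ.imm q t hSL.tJ
    have h1 : ∀ i : Fin n,
        (inner ℝ H (dv1 (loc (n := n) F q t) (chartAt (EE n) q q) i) : ℝ) = 0 := by
      intro i
      rw [hH, HH, mcv]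
      simp only [sum_inner, inner_smul_left, sff, (hNR n N _ _ hLI).1, mul_zero,
        Finset.sum_const_zero]
    intro v hv
    rw [TS] at hv
    refine Submodule.span_induction ?_ ?_ ?_ ?_ hv
    · rintro x ⟨i, rfl⟩
      exact h1 i
    · exact inner_zero_right _
    · intro x z _ _ hx hz
      rw [inner_add_right, hx, hz, add_zero]
    · intro a x _ hx
      rw [inner_smul_right, hx, mul_zero]
  -- the gradient of a coordinate
  have hgrad : ∀ (w : EE N) (h : EE n), (inner ℝ (fderiv ℝ f y h) w : ℝ) =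
      inner ℝ (gdM n F t (fun p => (inner ℝ (F p t) w : ℝ)) q) (fderiv ℝ f y h) := by
    intro w h
    have h1 := d5 (fun p => (inner ℝ (F p t) w : ℝ)) h
    rw [hcd] at h1
    rw [← h1]
    have h2 : cd n (fun p => (inner ℝ (F p t) w : ℝ)) q h =
        fderiv ℝ (fun z => (inner ℝ (f z) w : ℝ)) y h := by
      rw [hf, hy]; rfl
    rw [h2, fderiv_inner_apply ℝ d1' (differentiableAt_const w)]
    simp
  -- (1)
  have hone : ∀ v ∈ TS (n := n) F q t, ‖Qj L v‖ ≤ δ * ‖v‖ := by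
    intro v hv
    obtain ⟨h, hh⟩ := d3 v hv
    rw [hcd] at hh
    have h1 : ∀ w : EE N, (inner ℝ v w : ℝ) ^ 2 ≤ gw n F w q t * ‖v‖ ^ 2 := by
      intro w
      have h2 := hgrad w h
      rw [hh] at h2
      rw [h2]
      have h3 := abs_real_inner_le_norm
        (gdM n F t (fun p => (inner ℝ (F p t) w : ℝ)) q) v
      have h4 : (inner ℝ (gdM n F t (fun p => (inner ℝ (F p t) w : ℝ)) q) v : ℝ) ^ 2 ≤
          (‖gdM n F t (fun p => (inner ℝ (F p t) w : ℝ)) q‖ * ‖v‖) ^ 2 := by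
        rw [← sq_abs]
        exact pow_le_pow_left₀ (abs_nonneg _) h3 2
      rw [mul_pow] at h4
      refine h4.trans (mul_le_mul_of_nonneg_right ?_ (sq_nonneg _))
      rw [gw]
      have : 0 ≤ (inner ℝ (HH (n := n) F q t) w : ℝ) ^ 2 / ‖HH (n := n) F q t‖ ^ 2 := by
        positivity
      linarith
    have h2 : ‖Qj L v‖ ^ 2 ≤ (δ * ‖v‖) ^ 2 := by
      rw [nQj_sq, mul_pow]
      calc ∑ i : Fin N, (inner ℝ v (Qj L (ee i)) : ℝ) ^ 2
          ≤ ∑ i : Fin N, gw n F (Qj L (ee i)) q t * ‖v‖ ^ 2 :=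
            Finset.sum_le_sum fun i _ => h1 _
        _ = tlt n F L q t * ‖v‖ ^ 2 := by rw [tlt, Finset.sum_mul]
        _ ≤ _ := mul_le_mul_of_nonneg_right hq3 (sq_nonneg _)
    exact le_of_sq_le_sq h2 (by positivity)
  -- (2)
  have htwo : ‖Qj L H‖ ≤ δ * ‖H‖ := by
    have h1 : ∀ w : EE N, (inner ℝ H w : ℝ) ^ 2 ≤ gw n F w q t * ‖H‖ ^ 2 := by
      intro w
      rw [gw, ← hH, add_mul, div_mul_cancel₀ _ (by positivity)]
      have : 0 ≤ ‖gdM n F t (fun p => (inner ℝ (F p t) w : ℝ)) q‖ ^ 2 * ‖H‖ ^ 2 := by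
        positivity
      linarith
    have h2 : ‖Qj L H‖ ^ 2 ≤ (δ * ‖H‖) ^ 2 := by
      rw [nQj_sq, mul_pow]
      calc ∑ i : Fin N, (inner ℝ H (Qj L (ee i)) : ℝ) ^ 2
          ≤ ∑ i : Fin N, gw n F (Qj L (ee i)) q t * ‖H‖ ^ 2 :=
            Finset.sum_le_sum fun i _ => h1 _
        _ = tlt n F L q t * ‖H‖ ^ 2 := by rw [tlt, Finset.sum_mul]
        _ ≤ _ := mul_le_mul_of_nonneg_right hq3 (sq_nonneg _)
    exact le_of_sq_le_sq h2 (by positivity)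
  -- (3), (4)
  obtain ⟨k, hk⟩ : ∃ k : ℝ, k = kH n F q t := ⟨_, rfl⟩
  have hkH : k = ‖H‖ / n := by rw [hk, kH, hH]
  have hk2 : k ≤ l := by
    rw [hkH, div_le_iff₀ hn0, hH]
    have := hSL.mx q
    linarith
  obtain ⟨u, hu⟩ : ∃ u : EE N, u = F q t - c₀ := ⟨_, rfl⟩
  have hud : u = (cF n F q t - c₀) - (1 / k) • ((1 / ‖H‖) • H) := by
    rw [hu, cF, ← hH, hkH, smul_smul]
    have : 1 / (‖H‖ / n) * (1 / ‖H‖) = (n : ℝ) / ‖H‖ ^ 2 := by
      field_simp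
    rw [this]
    abel
  have hh1 : ‖(1 / ‖H‖) • H‖ = 1 := by
    rw [norm_smul, Real.norm_of_nonneg (by positivity)]
    field_simp
  have hh2 : ‖Qj L ((1 / ‖H‖) • H)‖ ≤ δ := by
    rw [Qj_smul, norm_smul, Real.norm_of_nonneg (by positivity)]
    rw [one_div, inv_mul_le_iff₀ hHn]
    linarith
  obtain ⟨e3, e4, e5⟩ := est34 L l k δ hl hδ hδ1 (by rw [hk]; exact hq1) hk2 u _ _ hud hq2 hh1 hh2
  have hR0 : 0 < ‖Pj L u‖ := by
    have h1 := (abs_le.1 e3).1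
    by_contra hcon
    have h2 : ‖Pj L u‖ = 0 := le_antisymm (not_lt.1 hcon) (norm_nonneg _)
    rw [h2, mul_zero] at h1
    linarith
  have hprj : prj L c₀ F t q = (1 / ‖Pj L u‖) • Pj L u := by
    rw [prj, hu]
  obtain ⟨p, hp⟩ : ∃ p : EE (n + 1), p = prj L c₀ F t q := ⟨_, rfl⟩
  have hpR : ‖Pj L u‖ • p = Pj L u := by
    rw [hp, hprj, smul_smul, mul_one_div_cancel hR0.ne', one_smul]
  have hp1 : ‖p‖ = 1 := by
    rw [hp, hprj, norm_smul, Real.norm_of_nonneg (by positivity)]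
    field_simp
  -- the differentiable map
  obtain ⟨X, hX⟩ : ∃ X : EE n → EE (n + 1), X = fun z => Pj L (f z - c₀) := ⟨_, rfl⟩
  have hfy : f y = F q t := by
    rw [hf, hy]
    simp only
    rw [(chartAt (EE n) q).left_inv (mem_chart_source (EE n) q)]
  have hXy : X y = Pj L u := by rw [hX, hu]; simp only [hfy]
  have hXd : DifferentiableAt ℝ X y := by
    rw [hX]
    exact (Pj L).differentiableAt.comp y (d1'.sub_const c₀)
  have hXf : ∀ h, fderiv ℝ X y h = Pj L (fderiv ℝ f y h) := by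
    intro h
    have h1 : HasFDerivAt X ((Pj L).comp (fderiv ℝ f y)) y := by
      rw [hX]
      exact (Pj L).hasFDerivAt.comp y (d1'.hasFDerivAt.sub_const c₀)
    rw [h1.fderiv]
    rfl
  have hXne : X y ≠ 0 := by
    rw [hXy]
    exact norm_pos_iff.1 hR0
  have hN : DifferentiableAt ℝ (fun z => ‖X z‖) y := hXd.norm ℝ hXne
  have hσ : DifferentiableAt ℝ (fun z => 1 / ‖X z‖) y := by
    have h := (hasDerivAt_inv (norm_ne_zero_iff.2 hXne)).differentiableAt.comp y hN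
    have h2 : (fun z => 1 / ‖X z‖) = (fun r : ℝ => r⁻¹) ∘ (fun z => ‖X z‖) := by
      funext z
      exact one_div _
    rw [h2]
    exact h
  have hprjX : (fun z => prj L c₀ F t ((chartAt (EE n) q).symm z)) =
      fun z => (1 / ‖X z‖) • X z := by
    rw [hX, hf]
    rfl
  refine ⟨hone, ?_, ?_, ?_, ?_, ?_⟩
  · rw [← hH]
    exact htwo
  · rw [← hu]
    exact e3
  · rw [← hu, ← hp]
    have h1 : u = L (Pj L u) + Qj L u := by rw [Qj]; abel
    have h2 : u - (1 / l) • L p = (‖Pj L u‖ - 1 / l) • L p + Qj L u := by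
      have h3 : L (Pj L u) = ‖Pj L u‖ • L p := by
        rw [← L.map_smul, hpR]
      rw [sub_smul, ← h3]
      conv_lhs => rw [h1]
      abel
    rw [h2]
    refine (norm_add_le _ _).trans ?_
    rw [norm_smul, LinearIsometry.norm_map, hp1, mul_one, Real.norm_eq_abs]
    have h4 : |‖Pj L u‖ - 1 / l| ≤ 3 * δ / l := by
      have h5 : ‖Pj L u‖ - 1 / l = (l * ‖Pj L u‖ - 1) / l := by field_simp
      rw [h5, abs_div, abs_of_pos hl, div_le_div_iff_of_pos_right hl]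
      exact e3
    have h6 : 6 * δ / l = 3 * δ / l + 3 * δ / l := by ring
    linarith
  · rw [hprjX, ← hy]
    exact hσ.smul hXd
  · intro h
    have hcdF : cd n (fun p => F p t) q h = fderiv ℝ f y h := by rw [hcd]
    obtain ⟨v, hv⟩ : ∃ v : EE N, v = fderiv ℝ f y h := ⟨_, rfl⟩
    have hvT : v ∈ TS (n := n) F q t := by rw [hv, ← hcdF]; exact d2 h
    have hw : cd n (prj L c₀ F t) q h = fderiv ℝ (fun z => (1 / ‖X z‖) • X z) y h := by
      rw [← hprjX, hy]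
      rfl
    have hw2 : fderiv ℝ (fun z => (1 / ‖X z‖) • X z) y h =
        (1 / ‖Pj L u‖) • Pj L v +
          (fderiv ℝ (fun z => 1 / ‖X z‖) y h * ‖Pj L u‖) • p := by
      rw [fderiv_fun_smul hσ hXd]
      simp only [add_apply, smul_apply,
        ContinuousLinearMap.smulRight_apply, hXf]
      rw [← hv, hXy, mul_smul, hpR]
    rw [hcdF, ← hv, hw]
    refine est6 L l ‖Pj L u‖ δ hl hδ hδ1 e3 hR0 u v p hpR hp1 ?_ (hone v hvT) e5 _ _ hw2
    have h1 : (inner ℝ v u : ℝ) = inner ℝ v (cF n F q t - c₀) := by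
      have h2 : (inner ℝ v H : ℝ) = 0 := by rw [real_inner_comm]; exact hnor v hvT
      rw [hud, inner_sub_right, inner_smul_right, inner_smul_right, h2]
      ring
    rw [h1]
    refine (abs_real_inner_le_norm _ _).trans ?_
    rw [mul_comm]
    exact mul_le_mul_of_nonneg_right hq2 (norm_nonneg _)

end Pool.Agent.Helper62.HC
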